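import Mathlib
import Pool.Agent.KS6_40.RF.Inter
import Pool.Agent.KS6_40.RF.Mono

/-!
# Every nondecreasing function of intermediate growth is a residual finiteness growth function

Full answer to Q1, in the strongest possible form: for every nondecreasing function `f` which grows
faster than every polynomial (without any further regularity condition, and without any upper bound)
there is a residually finite group with three generators, centre-by-metabelian, whose residual
finiteness growth function is equivalent to `f`. So, up to equivalence, the residual finiteness growth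
functions of intermediate growth are exactly the nondecreasing functions of intermediate growth; for
example `exp (n ^ β)` for every `0 < β < 1`.

`rfGrowth` (the residual finiteness growth function) and `Dominated` (the relation `⪯`) are in
`Pool.Agent.Helper439.RFDefs`, `Equivalent` (mutual domination) is in `Pool.Agent.H171R3.RFG.Fin`, and
`IsIntermediate` is in `Pool.Agent.KS6_40.RF.Inter`.

The groups are quotients, by central subgroups, of the group of P. Hall type of the matrices
`(1, p, c; 0, t ^ m, q; 0, 0, 1)` over `F_2[t, 1/t]`. Only a sequence of degrees `e 0 < e 1 < ...` is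
attached to `f` (the jumps of the integral part of the logarithm of `f`), and a relation is forced to
die under the functionals chosen at all the stages of a window whose length is not bounded in terms
of its index: it lasts until `e i` exceeds `4 ^ (e l)`. This removes the regularity conditions on `f`
needed for windows of bounded relative length.
-/

set_option autoImplicit false

namespace Pool.Agent.Results.MP_514792_al.AllIntermediateFunctions

open Pool.Agent.Helper439.RF Pool.Agent.H171R3.RFG Pool.Agent.KS6_40.RF

/-- **(1)** For every nondecreasing `f` which dominates all polynomials there is a residually finite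
group `G` with at most three generators, whose second derived subgroup is central, such that the
residual finiteness growth function of `G` is equivalent to `f`; it is of intermediate growth if `f`
is. **(2)** A function of intermediate growth is equivalent to the residual finiteness growth function
of a finitely generated residually finite group if and only if it is equivalent to a nondecreasing
function. **(3)** For `0 < β < 1` the function `exp (n ^ β)` is of intermediate growth, and these
functions are pairwise inequivalent. -/
theorem result :
    (∀ f : ℕ → ℝ, (∀ m n : ℕ, 1 ≤ m → m ≤ n → f m ≤ f n) →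
      (∀ d : ℕ, Dominated (fun n => (n : ℝ) ^ d) f) →
      ∃ (G : Type) (_ : Group G) (S : Set G), (S.Finite ∧ S.ncard ≤ 3 ∧ Subgroup.closure S = ⊤) ∧
        Group.ResiduallyFinite G ∧ derivedSeries G 2 ≤ Subgroup.center G ∧
        Equivalent (fun n => (rfGrowth S n : ℝ)) f ∧
        (IsIntermediate f → IsIntermediate (fun n => (rfGrowth S n : ℝ)))) ∧
    (∀ f : ℕ → ℝ, IsIntermediate f →
      ((∃ (G : Type) (_ : Group G) (S : Set G), S.Finite ∧ Subgroup.closure S = ⊤ ∧
          Group.ResiduallyFinite G ∧ Equivalent (fun n => (rfGrowth S n : ℝ)) f) ↔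
        ∃ h : ℕ → ℝ, (∀ m n : ℕ, 1 ≤ m → m ≤ n → h m ≤ h n) ∧ Equivalent h f)) ∧
    (∀ β : ℝ, 0 < β → β < 1 → IsIntermediate (fun n : ℕ => Real.exp ((n : ℝ) ^ β)) ∧
      ∀ β' : ℝ, β < β' → ¬ Equivalent (fun n : ℕ => Real.exp ((n : ℝ) ^ β'))
        (fun n : ℕ => Real.exp ((n : ℝ) ^ β))) := by
  have main : ∀ f : ℕ → ℝ, (∀ m n : ℕ, 1 ≤ m → m ≤ n → f m ≤ f n) →
      (∀ d : ℕ, Dominated (fun n => (n : ℝ) ^ d) f) →
      ∃ (G : Type) (_ : Group G) (S : Set G), (S.Finite ∧ S.ncard ≤ 3 ∧ Subgroup.closure S = ⊤) ∧
        Group.ResiduallyFinite G ∧ derivedSeries G 2 ≤ Subgroup.center G ∧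
        Equivalent (fun n => (rfGrowth S n : ℝ)) f ∧
        (IsIntermediate f → IsIntermediate (fun n => (rfGrowth S n : ℝ))) := by
    intro f hm hd
    obtain ⟨G, iG, S, h1, h2, h3, -, h4⟩ := realize_group hm (Dominated.trans log_pow_dominated (hd 16))
    exact ⟨G, iG, S, h1, h2, h3, h4, fun hf => hf.of_equivalent h4⟩
  refine ⟨main, fun f hf => ⟨?_, ?_⟩, fun β h0 h1 => ⟨isIntermediate_exp β h0 h1, ?_⟩⟩
  · rintro ⟨G, iG, S, h1, h2, -, h4⟩
    refine ⟨fun n => (rfGrowth S n : ℝ), fun m n _ hmn => ?_, h4⟩
    show ((rfGrowth S m : ℕ) : ℝ) ≤ ((rfGrowth S n : ℕ) : ℝ)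
    exact_mod_cast rfGrowth_mono S h1 h2 hmn
  · rintro ⟨h, hm, he⟩
    have hh := hf.of_equivalent he
    obtain ⟨G, iG, S, ⟨h1, -, h2⟩, h3, -, h4, -⟩ := main h hm (fun d => by
      rcases Nat.eq_zero_or_pos d with rfl | hd
      · refine Dominated.trans (Dominated.of_le (fun n hn => ?_)) (hh.1 1 le_rfl).1
        simpa using (by exact_mod_cast hn : (1 : ℝ) ≤ n)
      · exact (hh.1 d hd).1)
    exact ⟨G, iG, S, h1, h2, h3, Dominated.trans h4.1 he.1, Dominated.trans he.2 h4.2⟩
  · intro β' h h'
    exact not_dominated_exp β β' h0 h h'.1

end Pool.Agent.Results.MP_514792_al.AllIntermediateFunctions
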